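import Pool.Agent.AT6.Stmts4

/-!
# Squad AT6, row IXB: the inertial index is at most `ℓ ^ (r ^ 2)`
-/

noncomputable section

namespace Pool.Agent.PP.T6.H15

section abstract

variable {V : Type} [CommGroup V]

/-- powers mod the group of the `ℓ`-th powers -/
theorem fr_mem {ℓ m : ℕ} (hm : Nat.Coprime ℓ m) (Φ : Subgroup V) (hΦ : ∀ v : V, v ^ ℓ ∈ Φ)
    {w : V} (h : w ^ m ∈ Φ) : w ∈ Φ := by
  have h1 : (w : V) = (w ^ ℓ) ^ (Nat.gcdA ℓ m) * (w ^ m) ^ (Nat.gcdB ℓ m) := by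
    rw [← zpow_natCast w ℓ, ← zpow_natCast w m, ← zpow_mul, ← zpow_mul, ← zpow_add]
    have h2 := Nat.gcd_eq_gcd_ab ℓ m
    rw [hm] at h2
    rw [← h2]
    simp
  rw [h1]
  exact Φ.mul_mem (Φ.zpow_mem (hΦ w) _) (Φ.zpow_mem h _)

/-- the Frattini argument -/
theorem fr_top {ℓ a : ℕ} (W Φ : Subgroup V) (hΦ : ∀ v ∈ Φ, ∃ z : V, v = z ^ ℓ)
    (ha : ∀ v : V, v ^ ℓ ^ a = 1) (h : ∀ v : V, ∃ w ∈ W, ∃ f ∈ Φ, v = w * f) (v : V) : v ∈ W := by
  have key : ∀ k : ℕ, ∀ v : V, ∃ w ∈ W, ∃ z : V, v = w * z ^ ℓ ^ k := by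
    intro k
    induction k with
    | zero => exact fun v => ⟨1, W.one_mem, v, by simp⟩
    | succ k ih =>
      intro v
      obtain ⟨w, hw, z, rfl⟩ := ih v
      obtain ⟨w', hw', f, hf, rfl⟩ := h z
      obtain ⟨z', rfl⟩ := hΦ f hf
      refine ⟨w * w' ^ ℓ ^ k, W.mul_mem hw (W.pow_mem hw' _), z', ?_⟩
      rw [mul_pow, ← pow_mul, pow_succ', mul_assoc]
  obtain ⟨w, hw, z, hz⟩ := key a v
  rw [ha, mul_one] at hz
  rw [hz]
  exact hw

/-- the fixed points -/
def fx (r : MulAut V) : Subgroup V where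
  carrier := {v | r v = v}
  one_mem' := map_one r
  mul_mem' := by
    intro u v hu hv
    change r (u * v) = u * v
    rw [map_mul, show r u = u from hu, show r v = v from hv]
  inv_mem' := by
    intro u hu
    change r u⁻¹ = u⁻¹
    rw [map_inv, show r u = u from hu]

theorem mem_fx {r : MulAut V} {v : V} : v ∈ fx r ↔ r v = v := Iff.rfl

/-- the norm is a fixed point -/
theorem norm_mem (r : MulAut V) (m : ℕ) (hr : r ^ m = 1) (v : V) :
    (∏ i ∈ Finset.range m, (r ^ i) v) ∈ fx r := by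
  rw [mem_fx, map_prod]
  have h1 : ∀ i, r ((r ^ i) v) = (r ^ (i + 1)) v := by
    intro i
    rw [pow_succ']
    rfl
  simp only [h1]
  have h2 := Finset.prod_range_succ (fun i => (r ^ i) v) m
  have h3 := Finset.prod_range_succ' (fun i => (r ^ i) v) m
  rw [h2] at h3
  simp only [hr, pow_zero] at h3
  exact (mul_right_cancel h3).symm

/-- an element fixed modulo `Φ` is in `W Φ` -/
theorem fix_mod {ℓ m : ℕ} (hm : Nat.Coprime ℓ m) (r : MulAut V) (hr : r ^ m = 1)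
    (Φ : Subgroup V) (hΦ : ∀ v : V, v ^ ℓ ∈ Φ) (hrΦ : ∀ v ∈ Φ, r v ∈ Φ) {v : V} {f : V}
    (hf : f ∈ Φ) (hv : r v = v * f) : v ∈ fx r ⊔ Φ := by
  have h1 : ∀ i : ℕ, ∃ g ∈ Φ, (r ^ i) v = v * g := by
    intro i
    induction i with
    | zero => exact ⟨1, Φ.one_mem, by simp⟩
    | succ i ih =>
      obtain ⟨g, hg, h⟩ := ih
      refine ⟨f * r g, Φ.mul_mem hf (hrΦ g hg), ?_⟩
      rw [pow_succ', MulAut.mul_apply, h, map_mul, hv, mul_assoc]
  choose g hg h using h1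
  have h2 : ∏ i ∈ Finset.range m, (r ^ i) v = v ^ m * ∏ i ∈ Finset.range m, g i := by
    rw [Finset.prod_congr rfl fun i _ => h i, Finset.prod_mul_distrib]
    simp
  have h3 : v ^ m ∈ fx r ⊔ Φ := by
    have h4 : v ^ m = (∏ i ∈ Finset.range m, (r ^ i) v) * (∏ i ∈ Finset.range m, g i)⁻¹ := by
      rw [h2, mul_inv_cancel_right]
    rw [h4]
    refine Subgroup.mul_mem _ (Subgroup.mem_sup_left (norm_mem r m hr v))
      (Subgroup.mem_sup_right (Φ.inv_mem (Φ.prod_mem fun i _ => hg i)))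
  exact fr_mem hm _ (fun u => Subgroup.mem_sup_right (hΦ u)) h3

/-- a proper subgroup of a finite `ℓ`-group has index at least `ℓ` in a larger one -/
theorem card_le {ℓ : ℕ} [hℓ : Fact ℓ.Prime] [Finite V] (hp : IsPGroup ℓ V) (H K : Subgroup V)
    (hHK : H ≤ K) {x : V} (hxK : x ∈ K) (hx : x ∉ H) : ℓ * Nat.card H ≤ Nat.card K := by
  have hpK : IsPGroup ℓ K := hp.to_subgroup K
  obtain ⟨k, hk⟩ := (IsPGroup.iff_card).1 hpK
  have h0 : Nat.card H * H.relIndex K = Nat.card K := by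
    have h2 := Subgroup.card_mul_index (H.subgroupOf K)
    rw [Nat.card_congr (Subgroup.subgroupOfEquivOfLe hHK).toEquiv] at h2
    exact h2
  have h1 : H.relIndex K ∣ ℓ ^ k := by
    rw [← hk, ← h0]
    exact dvd_mul_left _ _
  obtain ⟨j, -, hj⟩ := (Nat.dvd_prime_pow hℓ.out).1 h1
  have h2 : j ≠ 0 := by
    intro h0
    rw [h0, pow_zero, Subgroup.relIndex_eq_one] at hj
    exact hx (hj hxK)
  have h3 : ℓ ≤ H.relIndex K := by
    rw [hj]
    exact Nat.le_self_pow h2 ℓ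
  rw [← h0, mul_comm]
  exact Nat.mul_le_mul_left _ h3

/-- a small set of generators modulo `Φ` -/
theorem gens {ℓ : ℕ} [hℓ : Fact ℓ.Prime] [Finite V] (hp : IsPGroup ℓ V) (Φ : Subgroup V) :
    ∃ S : Finset V, ℓ ^ S.card * Nat.card Φ ≤ Nat.card V ∧
      Subgroup.closure (S : Set V) ⊔ Φ = ⊤ := by
  classical
  have key : ∀ n : ℕ, (∃ S : Finset V, ℓ ^ S.card * Nat.card Φ ≤ Nat.card V ∧
      Subgroup.closure (S : Set V) ⊔ Φ = ⊤) ∨ ∃ S : Finset V, S.card = n ∧
        ℓ ^ S.card * Nat.card Φ ≤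
          Nat.card (Subgroup.closure (S : Set V) ⊔ Φ : Subgroup V) := by
    intro n
    induction n with
    | zero =>
      right
      refine ⟨∅, rfl, ?_⟩
      rw [Finset.card_empty, pow_zero, one_mul, Finset.coe_empty, Subgroup.closure_empty,
        bot_sup_eq]
    | succ n ih =>
      rcases ih with h | ⟨S, hS, h⟩
      · exact Or.inl h
      · by_cases htop : Subgroup.closure (S : Set V) ⊔ Φ = ⊤
        · left
          refine ⟨S, ?_, htop⟩
          rw [htop, Subgroup.card_top] at h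
          exact h
        · right
          obtain ⟨x, hx⟩ : ∃ x, x ∉ Subgroup.closure (S : Set V) ⊔ Φ := by
            by_contra hc
            push Not at hc
            exact htop (eq_top_iff.2 fun y _ => hc y)
          have hxS : x ∉ S := fun h1 =>
            hx (Subgroup.mem_sup_left (Subgroup.subset_closure (Finset.mem_coe.2 h1)))
          refine ⟨insert x S, by rw [Finset.card_insert_of_notMem hxS, hS], ?_⟩
          have h2 := card_le hp (Subgroup.closure (S : Set V) ⊔ Φ)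
            (Subgroup.closure ((insert x S : Finset V) : Set V) ⊔ Φ)
            (sup_le_sup_right (Subgroup.closure_mono (Finset.coe_subset.2
              (Finset.subset_insert x S))) Φ)
            (Subgroup.mem_sup_left (Subgroup.subset_closure (Finset.mem_coe.2
              (Finset.mem_insert_self x S)))) hx
          rw [Finset.card_insert_of_notMem hxS, pow_succ']
          refine le_trans ?_ h2
          rw [mul_assoc]
          exact Nat.mul_le_mul_left _ h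
  rcases key (Nat.card V) with h | ⟨S, hS, h⟩
  · exact h
  · exfalso
    have h1 : Nat.card (Subgroup.closure (S : Set V) ⊔ Φ : Subgroup V) ≤ Nat.card V :=
      Subgroup.card_le_card_group _
    have h2 : Nat.card V < ℓ ^ Nat.card V := Nat.lt_pow_self hℓ.out.one_lt
    have h3 : ℓ ^ S.card * 1 ≤ ℓ ^ S.card * Nat.card Φ :=
      Nat.mul_le_mul_left _ Nat.card_pos
    rw [hS] at h h3
    omega

/-- a group of automorphisms of order prime to `ℓ` is small -/
theorem aut_card {ℓ r : ℕ} [hℓ : Fact ℓ.Prime] [Finite V] (hp : IsPGroup ℓ V) (Φ : Subgroup V)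
    (hΦ : ∀ v : V, v ^ ℓ ∈ Φ) (hΦ' : ∀ v ∈ Φ, ∃ z : V, v = z ^ ℓ)
    (hr : Nat.card V ≤ ℓ ^ r * Nat.card Φ) (A : Subgroup (MulAut V)) (hA : ¬ ℓ ∣ Nat.card A) :
    Nat.card A ≤ ℓ ^ r ^ 2 := by
  classical
  have hcop : Nat.Coprime ℓ (Nat.card A) := (Nat.Prime.coprime_iff_not_dvd hℓ.out).2 hA
  have hpow : ∀ t ∈ A, t ^ Nat.card A = 1 := by
    intro t ht
    have h1 : (⟨t, ht⟩ : A) ^ Nat.card A = 1 := pow_card_eq_one'
    exact congrArg Subtype.val h1
  have hrΦ : ∀ (r : MulAut V), ∀ v ∈ Φ, r v ∈ Φ := by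
    intro r v hv
    obtain ⟨z, rfl⟩ := hΦ' v hv
    rw [map_pow]
    exact hΦ _
  obtain ⟨a, ha⟩ := (IsPGroup.iff_card).1 hp
  have ha' : ∀ v : V, v ^ ℓ ^ a = 1 := fun v => by rw [← ha]; exact pow_card_eq_one'
  obtain ⟨S, hS, hgen⟩ := gens hp Φ
  have hPpos : 0 < Nat.card Φ := Nat.card_pos
  have hSr : S.card ≤ r := by
    have h1 := Nat.le_of_mul_le_mul_right (hS.trans hr) hPpos
    exact (Nat.pow_le_pow_iff_right hℓ.out.one_lt).1 h1
  have hq : Nat.card (V ⧸ Φ) ≤ ℓ ^ r := by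
    have h1 : Nat.card (V ⧸ Φ) * Nat.card Φ = Nat.card V :=
      (Subgroup.card_eq_card_quotient_mul_card_subgroup Φ).symm
    rw [← h1] at hr
    exact Nat.le_of_mul_le_mul_right hr hPpos
  let f : A → (S → V ⧸ Φ) := fun t x => QuotientGroup.mk ((t : MulAut V) (x : V))
  have hf : Function.Injective f := by
    intro t t' htt
    have h1 : ∀ x ∈ S, x ∈ fx ((t' : MulAut V)⁻¹ * (t : MulAut V)) ⊔ Φ := by
      intro x hx
      have h2 : (QuotientGroup.mk ((t' : MulAut V) x) : V ⧸ Φ) =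
          QuotientGroup.mk ((t : MulAut V) x) := (congrFun htt ⟨x, hx⟩).symm
      rw [QuotientGroup.eq] at h2
      refine fix_mod hcop _ (hpow _ (A.mul_mem (A.inv_mem t'.2) t.2)) Φ hΦ (hrΦ _)
        (f := (t' : MulAut V)⁻¹ (((t' : MulAut V) x)⁻¹ * (t : MulAut V) x)) (hrΦ _ _ h2) ?_
      rw [MulAut.mul_apply, map_mul, map_inv, MulAut.inv_apply_self, mul_inv_cancel_left]
    have h3 : fx ((t' : MulAut V)⁻¹ * (t : MulAut V)) ⊔ Φ = ⊤ := by
      rw [eq_top_iff, ← hgen]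
      refine sup_le ?_ le_sup_right
      rw [Subgroup.closure_le]
      exact fun x hx => h1 x (Finset.mem_coe.1 hx)
    have h4 : ∀ v : V, v ∈ fx ((t' : MulAut V)⁻¹ * (t : MulAut V)) := by
      refine fr_top (ℓ := ℓ) (a := a) _ Φ hΦ' ha' fun v => ?_
      have h5 : v ∈ fx ((t' : MulAut V)⁻¹ * (t : MulAut V)) ⊔ Φ := by
        rw [h3]; exact Subgroup.mem_top v
      obtain ⟨w, hw, p, hp, h7⟩ := Subgroup.mem_sup.1 h5
      exact ⟨w, hw, p, hp, h7.symm⟩
    have h5 : (t' : MulAut V)⁻¹ * (t : MulAut V) = 1 := by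
      ext v
      exact h4 v
    exact Subtype.ext (eq_of_inv_mul_eq_one h5).symm
  have h6 := Nat.card_le_card_of_injective f hf
  have h7 : Nat.card (S → V ⧸ Φ) = Nat.card (V ⧸ Φ) ^ S.card := by
    rw [Nat.card_fun, Nat.card_eq_fintype_card (α := S), Fintype.card_coe]
  rw [h7] at h6
  calc Nat.card A ≤ Nat.card (V ⧸ Φ) ^ S.card := h6
    _ ≤ (ℓ ^ r) ^ S.card := Nat.pow_le_pow_left hq _
    _ ≤ (ℓ ^ r) ^ r := Nat.pow_le_pow_right (pow_pos hℓ.out.pos r) hSr
    _ = ℓ ^ r ^ 2 := by rw [← pow_mul, sq]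

end abstract

/-- the group theoretic statement -/
theorem grp {G : Type} [Group G] [Finite G] {ℓ : ℕ} [hℓ : Fact ℓ.Prime] (V T : Subgroup G)
    (hT : T ≤ Subgroup.normalizer (V : Set G)) (hab : ∀ a ∈ V, ∀ b ∈ V, a * b = b * a)
    (hp : IsPGroup ℓ V) (hw : T2.PwuStmt)
    (hi : ¬ ℓ ∣ (Subgroup.centralizer (V : Set G)).relIndex T) {r : ℕ}
    (hr : Nat.card V ≤ ℓ ^ r * Nat.card (T2.Uw ℓ V)) :
    (Subgroup.centralizer (V : Set G)).relIndex T ≤ ℓ ^ r ^ 2 := by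
  obtain ⟨w1, w2, -⟩ := hw G ℓ V hab
  let _ : CommGroup V := { (inferInstance : Group V) with
    mul_comm := fun x y => Subtype.ext (hab x x.2 y y.2) }
  set A : Subgroup (MulAut V) :=
    (T.subgroupOf (Subgroup.normalizer (V : Set G))).map V.normalizerMonoidHom with hA
  have hAc : Nat.card A = (Subgroup.centralizer (V : Set G)).relIndex T := by
    rw [hA, ← Subgroup.relIndex_ker, Subgroup.normalizerMonoidHom_ker,
      Subgroup.relIndex_subgroupOf hT]
  have hc : Nat.card ((T2.Uw ℓ V).subgroupOf V) = Nat.card (T2.Uw ℓ V) :=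
    Nat.card_congr (Subgroup.subgroupOfEquivOfLe w2).toEquiv
  rw [← hAc] at hi ⊢
  refine aut_card hp ((T2.Uw ℓ V).subgroupOf V) (fun v => ?_) (fun v hv => ?_) ?_ A hi
  · rw [Subgroup.mem_subgroupOf, w1]
    exact ⟨v, v.2, rfl⟩
  · rw [Subgroup.mem_subgroupOf, w1] at hv
    obtain ⟨z, hz, h⟩ := hv
    exact ⟨⟨z, hz⟩, Subtype.ext h⟩
  · rw [hc]; exact hr

open Pool.Agent.Helper51_AWC Pool.Agent.Helper79_WRA Pool.Agent.PP Pool.Agent.PP.KF
open Pool.Agent.PP.K9 Pool.Agent.PP.K9.H97 Pool.Agent.PP.H75 Pool.Agent.PP.T3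

/-- Row IXB. -/
theorem ixb (hw : T2.PwuStmt) : IxbStmt := by
  intro ℓ _ F _ hF G _ _ e V γ hL hi r hr
  exact grp V (Tg V γ) inf_le_left hL.ab hL.tp.pg hw hi hr

end Pool.Agent.PP.T6.H15
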